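import Mathlib
import Pool.Agent.Helper69.BQ.Defs

/-!
# Project BQ, piece M6: correctness of the primality test
-/

namespace Pool.Agent.Helper93.BQ

open Pool.Agent.Helper69.BQ

lemma noDiv_spec {p : ℕ} : ∀ (f k : ℕ), noDiv p f k = true → k % 2 = 1 →
    p < (k + 2 * f) ^ 2 ∧ ∀ m, k ≤ m → m % 2 = 1 → m * m ≤ p → ¬ m ∣ p
  | 0, k, h, _ => by simp [noDiv] at h
  | f + 1, k, h, hk => by
    rw [noDiv] at h
    by_cases hlt : p < k * k
    · refine ⟨lt_of_lt_of_le hlt (by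
        rw [pow_two]; exact Nat.mul_le_mul (by omega) (by omega)), ?_⟩
      intro m hm _ hmm
      exact absurd (lt_of_lt_of_le hlt (Nat.mul_le_mul hm hm)) (by omega)
    · rw [if_neg hlt, Bool.and_eq_true, decide_eq_true_eq] at h
      obtain ⟨h1, h2⟩ := noDiv_spec f (k + 2) h.2 (by omega)
      refine ⟨?_, ?_⟩
      · have h3 : k + 2 + 2 * f = k + 2 * (f + 1) := by ring
        rwa [h3] at h1
      · intro m hm hm2 hmm hdvd
        rcases Nat.lt_or_ge m (k + 2) with h3 | h3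
        · have h4 : m = k := by omega
          subst h4
          exact h.1 (Nat.mod_eq_zero_of_dvd hdvd)
        · exact h2 m h3 hm2 hmm hdvd

/-- M6. Correctness of the primality test. -/
lemma prime_of_primeB {p : ℕ} (h : primeB p = true) : p.Prime ∧ p ≠ 2 ∧ p < 2 ^ 30 := by
  rw [primeB, Bool.and_eq_true, Bool.and_eq_true, decide_eq_true_eq, decide_eq_true_eq] at h
  obtain ⟨⟨h1, h2⟩, h3⟩ := h
  obtain ⟨h4, h5⟩ := noDiv_spec 4096 3 h3 (by norm_num)
  refine ⟨Nat.prime_def_le_sqrt.2 ⟨by omega, ?_⟩, by omega, lt_of_lt_of_le h4 (by norm_num)⟩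
  intro m hm hms hdvd
  have hmm : m * m ≤ p := Nat.le_sqrt.1 hms
  rcases Nat.mod_two_eq_zero_or_one m with h6 | h6
  · have h7 : 2 ∣ p := dvd_trans (Nat.dvd_of_mod_eq_zero h6) hdvd
    omega
  · exact h5 m (by omega) h6 hmm hdvd

end Pool.Agent.Helper93.BQ
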